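import Pool.Agent.J4H33.AF.Asy
import Pool.Agent.J4H33.AF.Vol
import Pool.Agent.J4H87.AF.Win

set_option autoImplicit false

/-!
# Waring's problem for generic polynomials: window averages with a power saving (helper7, after helper33)
-/

namespace Pool.Agent.J4H7.AG

open Finset MeasureTheory Filter Topology
open Pool.Agent.J4H7.AF
open Pool.Agent.J4H7.WS (fr)
open Pool.Agent.J4H33.AF (LE' window t_VOL)
open Pool.Agent.J4H87.AF (two_rpow_bound)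

/-- the constant of the asymptotic formula -/
noncomputable def cS (k s : ℕ) : ℝ := Real.Gamma (1 + 1 / k) ^ s / Real.Gamma ((s : ℝ) / k)

/-- **(AVG)** the window averages -/
theorem avg {k s : ℕ} (hk : 2 ≤ k) (hs : k + 1 ≤ s) {f : ℝ → ℝ} {c : ℝ} (hc : 0 ≤ c) (hlo : ∀ n : ℕ, n ^ k ≤ fr f n)
    (hup : ∀ n : ℕ, 1 ≤ n → (fr f n : ℝ) ≤ ((n : ℝ) + c) ^ k) : ∃ C : ℝ, 1 ≤ C ∧ ∀ N W : ℕ, 1 ≤ W → 2 * W ≤ N →
    |1 / (W : ℝ) * ∑ h ∈ range W, (rep f s (N - h) : ℝ) - cS k s * (N : ℝ) ^ ((s : ℝ) / k - 1)| ≤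
      C * ((N : ℝ) ^ ((s : ℝ) / k - 2) * W + (N : ℝ) ^ (((s : ℝ) - 1) / k) / W) := by
  have hk0 : (0 : ℝ) < k := by exact_mod_cast (by omega : 0 < k)
  have hs0 : (0 : ℝ) < s := by exact_mod_cast (by omega : 0 < s)
  obtain ⟨C, hC⟩ := t_VOL k s hk (by omega) f c hc hlo hup
  set a : ℝ := (s : ℝ) / k with ha
  set b : ℝ := ((s : ℝ) - 1) / k with hb
  have ha1 : 1 < a := by
    rw [ha, lt_div_iff₀ hk0, one_mul]
    exact_mod_cast (by omega : k < s)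
  have hb0 : 0 ≤ b := by
    rw [hb]
    have : (1 : ℝ) ≤ s := by exact_mod_cast (by omega : 1 ≤ s)
    exact div_nonneg (by linarith) hk0.le
  set γ : ℝ := Real.Gamma (1 + 1 / k) ^ s / Real.Gamma (1 + s / k) with hγ
  have hγ0 : 0 ≤ γ := by
    have h1 : 0 < Real.Gamma (1 + 1 / k) := Real.Gamma_pos_of_pos (by positivity)
    have h2 : 0 < Real.Gamma (1 + s / k) := Real.Gamma_pos_of_pos (by positivity)
    positivity
  have hγa : cS k s = γ * a := by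
    unfold cS
    have h2 : 0 < Real.Gamma ((s : ℝ) / k) := Real.Gamma_pos_of_pos (by positivity)
    rw [hγ, add_comm (1 : ℝ) ((s : ℝ) / k), Real.Gamma_add_one (by positivity), ← ha]
    rw [← ha] at h2
    field_simp
  rw [hγa]
  set D : ℝ := γ * a * ((a - 1) * 2 ^ |a - 2|) with hD
  have hD0 : 0 ≤ D := by
    have : 0 ≤ a - 1 := by linarith
    positivity
  refine ⟨1 + 2 * |C| + D, by have := abs_nonneg C; linarith, ?_⟩
  intro N W hW1 hWN
  have hW0 : (0 : ℝ) < W := by exact_mod_cast hW1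
  have hN2 : 1 ≤ N := by omega
  have hN0 : (0 : ℝ) < N := by exact_mod_cast hN2
  have hWN' : 2 * (W : ℝ) ≤ N := by exact_mod_cast hWN
  have hWltN' : W < N := by omega
  have hsub : ((N - W : ℕ) : ℝ) = (N : ℝ) - W := Nat.cast_sub hWltN'.le
  rw [window hk hlo N W hWltN'.le]
  -- the volumes
  have hV1 := hC N hN2
  have hV2 := hC (N - W) (by omega)
  change |((LE' f s N).ncard : ℝ) - γ * (N : ℝ) ^ a| ≤ C * (N : ℝ) ^ b at hV1
  change |((LE' f s (N - W)).ncard : ℝ) - γ * ((N - W : ℕ) : ℝ) ^ a| ≤ C * ((N - W : ℕ) : ℝ) ^ b at hV2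
  have hV1' : |((LE' f s N).ncard : ℝ) - γ * (N : ℝ) ^ a| ≤ |C| * (N : ℝ) ^ b :=
    hV1.trans (mul_le_mul_of_nonneg_right (le_abs_self _) (by positivity))
  have hV2' : |((LE' f s (N - W)).ncard : ℝ) - γ * ((N : ℝ) - W) ^ a| ≤ |C| * (N : ℝ) ^ b := by
    rw [hsub] at hV2
    have h0 : (0 : ℝ) ≤ (N : ℝ) - W := by linarith
    calc _ ≤ C * ((N : ℝ) - W) ^ b := hV2
      _ ≤ |C| * ((N : ℝ) - W) ^ b := mul_le_mul_of_nonneg_right (le_abs_self _) (by positivity)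
      _ ≤ |C| * (N : ℝ) ^ b := by
        refine mul_le_mul_of_nonneg_left (Real.rpow_le_rpow h0 (by linarith) hb0) (abs_nonneg _)
  -- mean value theorem
  obtain ⟨ξ, hξ, hξe⟩ : ∃ ξ ∈ Set.Ioo ((N : ℝ) - W) N,
      a * ξ ^ (a - 1) = ((N : ℝ) ^ a - ((N : ℝ) - W) ^ a) / (N - ((N : ℝ) - W)) := by
    refine exists_hasDerivAt_eq_slope (fun x : ℝ => x ^ a) (fun x => a * x ^ (a - 1)) (by linarith)
      (ContinuousOn.rpow_const continuousOn_id fun x _ => Or.inr (by linarith)) ?_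
    intro x hx
    exact Real.hasDerivAt_rpow_const (Or.inr ha1.le)
  have hden : (N : ℝ) - ((N : ℝ) - W) = W := by ring
  rw [hden] at hξe
  have hξ0 : 0 < ξ := by linarith [hξ.1]
  -- comparison
  have hav : |1 / (W : ℝ) * (((LE' f s N).ncard : ℝ) - ((LE' f s (N - W)).ncard : ℝ)) -
      γ * (a * ξ ^ (a - 1))| ≤ 2 * |C| * ((N : ℝ) ^ b / W) := by
    have h1 : 1 / (W : ℝ) * (((LE' f s N).ncard : ℝ) - ((LE' f s (N - W)).ncard : ℝ)) -
      γ * (a * ξ ^ (a - 1)) = ((((LE' f s N).ncard : ℝ) - γ * (N : ℝ) ^ a) -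
        (((LE' f s (N - W)).ncard : ℝ) - γ * ((N : ℝ) - W) ^ a)) / W := by
      rw [hξe]
      field_simp
      ring
    rw [h1, abs_div, abs_of_pos hW0, ← mul_div_assoc]
    refine div_le_div_of_nonneg_right ?_ hW0.le
    refine (abs_sub _ _).trans ?_
    linarith
  -- the second mean value theorem
  obtain ⟨η, hη, hηe⟩ : ∃ η ∈ Set.Ioo ξ (N : ℝ), (a - 1) * η ^ (a - 1 - 1) = ((N : ℝ) ^ (a - 1) - ξ ^ (a - 1)) / (N - ξ) := by
    refine exists_hasDerivAt_eq_slope (fun x : ℝ => x ^ (a - 1)) (fun x => (a - 1) * x ^ (a - 1 - 1)) hξ.2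
      (ContinuousOn.rpow_const continuousOn_id fun x hx => Or.inr (by linarith)) ?_
    intro x hx
    exact Real.hasDerivAt_rpow_const (Or.inl (by linarith [hx.1]))
  have hNξ : 0 < (N : ℝ) - ξ := by linarith [hξ.2]
  rw [eq_div_iff hNξ.ne'] at hηe
  have hη0 : 0 < η := by linarith [hη.1]
  have hη2 : η ^ (a - 2) ≤ 2 ^ |a - 2| * (N : ℝ) ^ (a - 2) := by
    rcases le_total 0 (a - 2) with he | he
    · have h1 : η ^ (a - 2) ≤ (N : ℝ) ^ (a - 2) := Real.rpow_le_rpow hη0.le hη.2.le he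
      have h2 : (1 : ℝ) ≤ 2 ^ |a - 2| := Real.one_le_rpow (by norm_num) (abs_nonneg _)
      have h3 : 0 ≤ (N : ℝ) ^ (a - 2) := by positivity
      nlinarith
    · have h1 : η ^ (a - 2) ≤ ((N : ℝ) / 2) ^ (a - 2) :=
        Real.rpow_le_rpow_of_nonpos (by positivity) (by linarith [hη.1, hξ.1]) he
      refine h1.trans (le_of_eq ?_)
      rw [Real.div_rpow hN0.le (by norm_num), abs_of_nonpos he, Real.rpow_neg (by norm_num)]
      field_simp
  have hmain : |γ * (a * ξ ^ (a - 1)) - γ * a * (N : ℝ) ^ (a - 1)| ≤ D * ((N : ℝ) ^ (a - 2) * W) := by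
    have h1 : γ * (a * ξ ^ (a - 1)) - γ * a * (N : ℝ) ^ (a - 1) = -(γ * a * ((N : ℝ) ^ (a - 1) - ξ ^ (a - 1))) := by ring
    have h2 : (a - 1) * η ^ (a - 1 - 1) * ((N : ℝ) - ξ) ≤ (a - 1) * (2 ^ |a - 2| * (N : ℝ) ^ (a - 2)) * W := by
      have e1 : a - 1 - 1 = a - 2 := by ring
      rw [e1]
      have h3 : (a - 1) * η ^ (a - 2) ≤ (a - 1) * (2 ^ |a - 2| * (N : ℝ) ^ (a - 2)) :=
        mul_le_mul_of_nonneg_left hη2 (by linarith)
      have h4 : (N : ℝ) - ξ ≤ W := by linarith [hξ.1]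
      have h5 : 0 ≤ (a - 1) * (2 ^ |a - 2| * (N : ℝ) ^ (a - 2)) := mul_nonneg (by linarith) (by positivity)
      exact mul_le_mul h3 h4 hNξ.le h5
    have h6 : 0 ≤ (N : ℝ) ^ (a - 1) - ξ ^ (a - 1) := by
      have := Real.rpow_le_rpow hξ0.le hξ.2.le (by linarith : 0 ≤ a - 1)
      linarith
    have h7 : 0 ≤ γ * a := mul_nonneg hγ0 (by linarith)
    rw [h1, abs_neg, abs_of_nonneg (mul_nonneg h7 h6), ← hηe]
    calc γ * a * ((a - 1) * η ^ (a - 1 - 1) * ((N : ℝ) - ξ)) ≤ γ * a * ((a - 1) * (2 ^ |a - 2| * (N : ℝ) ^ (a - 2)) * W) :=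
          mul_le_mul_of_nonneg_left h2 h7
      _ = _ := by
        rw [hD]
        ring
  have h2 := abs_sub_le (1 / (W : ℝ) * (((LE' f s N).ncard : ℝ) - ((LE' f s (N - W)).ncard : ℝ)))
      (γ * (a * ξ ^ (a - 1))) (γ * a * (N : ℝ) ^ (a - 1))
  have h3 : 0 ≤ (N : ℝ) ^ (a - 2) * W := by positivity
  have h4 : 0 ≤ (N : ℝ) ^ b / W := by positivity
  have h5 := abs_nonneg C
  calc _ ≤ 2 * |C| * ((N : ℝ) ^ b / W) + D * ((N : ℝ) ^ (a - 2) * W) := h2.trans (add_le_add hav hmain)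
    _ ≤ _ := by nlinarith

end Pool.Agent.J4H7.AG
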