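import Pool.Agent.J4H7.AF.Ext

set_option autoImplicit false

/-!
# Waring's problem for generic polynomials: the tuples with a small component on average (helper7)
-/

namespace Pool.Agent.J4H7.AG

open Finset MeasureTheory Filter Topology
open Pool.Agent.J4H7.AF
open Pool.Agent.J4H7.WS (fr)

lemma low_f {k c : ℕ} {f : ℝ → ℝ} (hg : ∀ n : ℕ, n ^ k ≤ fr (fun z => f (z + c)) n) {n : ℕ} (hn : 1 ≤ n) :
    -(∑ n ∈ range (c + 1), |⌊f n⌋|) ≤ ⌊f n⌋ := by
  have hB0 : (0 : ℤ) ≤ ∑ n ∈ range (c + 1), |⌊f n⌋| := Finset.sum_nonneg fun _ _ => abs_nonneg _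
  rcases Nat.lt_or_ge c n with h | h
  · have h5 := fl_shift (n := n - c) hg (by omega)
    rw [Nat.sub_add_cancel h.le] at h5
    rw [h5]
    have : (0 : ℤ) ≤ (fr (fun z => f (z + c)) (n - c) : ℤ) := by positivity
    linarith
  · have h5 : |⌊f n⌋| ≤ ∑ n ∈ range (c + 1), |⌊f n⌋| :=
      Finset.single_le_sum (f := fun n : ℕ => |⌊f n⌋|) (fun _ _ => abs_nonneg _) (Finset.mem_range.2 (by omega))
    linarith [neg_abs_le ⌊f n⌋]

/-- the components are bounded -/
lemma coord_le {k s' c M N : ℕ} (hk : 1 ≤ k) {f : ℝ → ℝ} (hg : ∀ n : ℕ, n ^ k ≤ fr (fun z => f (z + c)) n)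
    (hM : N + BB0 f c (s' + 1) ≤ M ^ k) {x : Fin (s' + 1) → ℕ} (hx1 : ∀ i, 1 ≤ x i) (hx2 : ∑ i, ⌊f (x i)⌋ = (N : ℤ)) (i : Fin (s' + 1)) :
    x i ≤ M + c := by
  rcases Nat.lt_or_ge c (x i) with h | h
  · set B : ℤ := ∑ n ∈ range (c + 1), |⌊f n⌋| with hB
    have hB0 : 0 ≤ B := Finset.sum_nonneg fun _ _ => abs_nonneg _
    have h3 : (⌊f (x i)⌋ : ℤ) + ∑ j : Fin s', (⌊f (x (i.succAbove j))⌋ : ℤ) = N := by
      rw [← hx2, Fin.sum_univ_succAbove _ i]
    have h4 : -(s' * B) ≤ ∑ j : Fin s', (⌊f (x (i.succAbove j))⌋ : ℤ) := by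
      calc -(s' * B) = ∑ _j : Fin s', -B := by simp
        _ ≤ _ := Finset.sum_le_sum fun j _ => low_f hg (hx1 _)
    have h5 := fl_shift (n := x i - c) hg (by omega)
    rw [Nat.sub_add_cancel h.le] at h5
    rw [h5] at h3
    have h6 : ((x i - c : ℕ) ^ k : ℕ) ≤ fr (fun z => f (z + c)) (x i - c) := hg _
    have h7 : (((x i - c : ℕ) ^ k : ℕ) : ℤ) ≤ fr (fun z => f (z + c)) (x i - c) := by exact_mod_cast h6
    have h8 : (s' : ℤ) * B ≤ BB0 f c (s' + 1) := by
      unfold BB0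
      push_cast
      have : (0 : ℤ) ≤ (fr (fun z => f (z + c)) 1 : ℤ) := by positivity
      have h9 : (0 : ℤ) ≤ (s' : ℤ) := by positivity
      rw [← hB]
      nlinarith
    have h9 : (((x i - c : ℕ) ^ k : ℕ) : ℤ) ≤ ((N + BB0 f c (s' + 1) : ℕ) : ℤ) := by
      push_cast at h7 ⊢
      linarith
    have h10 : (x i - c) ^ k ≤ N + BB0 f c (s' + 1) := by exact_mod_cast h9
    have h11 : x i - c ≤ M := (Nat.pow_le_pow_iff_left (by omega)).1 (h10.trans hM)
    omega
  · omega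

open scoped Classical in
/-- **the first moment** -/
theorem bad_sum {k s' c M X : ℕ} (hk : 1 ≤ k) {f : ℝ → ℝ} (hg : ∀ n : ℕ, n ^ k ≤ fr (fun z => f (z + c)) n)
    (hM : X + BB0 f c (s' + 1) ≤ M ^ k) (T : ℕ → Finset (Fin (s' + 1) → ℕ))
    (hT : ∀ N, ∀ x ∈ T N, (∀ i, 1 ≤ x i) ∧ ∑ i, ⌊f (x i)⌋ = (N : ℤ) ∧ ∃ i, x i ≤ c) :
    ∑ N ∈ range X, (T N).card ≤ (s' + 1) * ((c + 1) * (M + c + 1) ^ s') := by
  have hdisj : ∀ N ∈ range X, ∀ N' ∈ range X, N ≠ N' → Disjoint (T N) (T N') := by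
    intro N _ N' _ hne
    rw [Finset.disjoint_left]
    intro x hx hx'
    have h1 := (hT N x hx).2.1
    have h2 := (hT N' x hx').2.1
    rw [h1] at h2
    exact hne (by exact_mod_cast h2)
  rw [← Finset.card_biUnion hdisj]
  have hsub : (range X).biUnion T ⊆ (Finset.univ : Finset (Fin (s' + 1))).biUnion fun i =>
      Fintype.piFinset fun j : Fin (s' + 1) => if j = i then range (c + 1) else range (M + c + 1) := by
    intro x hx
    obtain ⟨N, hN, hxN⟩ := Finset.mem_biUnion.1 hx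
    obtain ⟨h1, h2, i, h3⟩ := hT N x hxN
    refine Finset.mem_biUnion.2 ⟨i, Finset.mem_univ i, ?_⟩
    rw [Fintype.mem_piFinset]
    intro j
    split_ifs with h
    · rw [h, Finset.mem_range]
      omega
    · rw [Finset.mem_range]
      have hNX := Finset.mem_range.1 hN
      have := coord_le (M := M) hk hg (by omega) h1 h2 j
      omega
  refine (Finset.card_le_card hsub).trans (Finset.card_biUnion_le.trans ?_)
  have h1 : ∀ i ∈ (Finset.univ : Finset (Fin (s' + 1))),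
      (Fintype.piFinset fun j : Fin (s' + 1) => if j = i then range (c + 1) else range (M + c + 1)).card ≤
        (c + 1) * (M + c + 1) ^ s' := by
    intro i _
    rw [Fintype.card_piFinset, Fin.prod_univ_succAbove _ i]
    apply le_of_eq
    congr 1
    · rw [if_pos rfl, Finset.card_range]
    · rw [Finset.prod_congr rfl (g := fun _ => M + c + 1) (fun j _ => by rw [if_neg (Fin.succAbove_ne i j), Finset.card_range])]
      simp
  refine (Finset.sum_le_sum h1).trans (le_of_eq ?_)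
  simp

end Pool.Agent.J4H7.AG
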