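import Pool.Agent.J4H7.AF.Ext
import Pool.Agent.J4H87.AF.Win
import Pool.Agent.J4H30.WT.Var

set_option autoImplicit false

/-!
# Waring's problem for generic polynomials: the variance (helper7)
-/

namespace Pool.Agent.J4H7.AG

open Finset MeasureTheory Filter Topology
open Pool.Agent.J4H7.WE (JJ FFs KK GGs RR RR_eq RR_avg ee_add ee_zero ee_norm')
open Pool.Agent.J4H7.AF
open Pool.Agent.J4H7.WS (fr fsR)
open Pool.Agent.J4H30.WT (rr)
open Pool.Agent.J4H87.AF (FFs_CB GGs_CB RR_triv rep_eq SF_le JJ_mono)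
open Pool.Agent.Helper153.Vdc (ee)

/-- splitting of the `s` summands -/
lemma rr_split (f : ℝ → ℝ) (k s M : ℕ) (hs : k ≤ s) (n : ℤ) :
    rr (CB k (Finset.Icc 1 M)) (fsR f) (CB (s - k) (Finset.Icc 1 M)) (fsR f) (fun _ => 1) n =
      (((CB s (Finset.Icc 1 M)).filter fun x => (fsR f x : ℤ) = n).card : ℝ) := by
  rw [← RR_triv]
  have h : ((rr (CB k (Finset.Icc 1 M)) (fsR f) (CB (s - k) (Finset.Icc 1 M)) (fsR f) (fun _ => 1) n : ℝ) : ℂ) =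
      ((RR ({()} : Finset Unit) (fun _ => 0) (CB s (Finset.Icc 1 M)) (fsR f) (fun _ => 1) n : ℝ) : ℂ) := by
    rw [Pool.Agent.J4H30.WT.rr_eq, RR_eq]
    refine intervalIntegral.integral_congr fun α _ => ?_
    simp only [FFs_CB, GGs_CB]
    have h1 : FFs ({()} : Finset Unit) (fun _ => 0) α = 1 := by
      unfold FFs
      simp [ee_zero]
    rw [h1, ← pow_add]
    have h2 : k + (s - k) = s := by omega
    rw [h2, one_pow, one_mul]
  exact_mod_cast h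

/-- **the variance** -/
theorem var_rep {k s : ℕ} (hk : 2 ≤ k) (hs : k + 1 ≤ s) {f : ℝ → ℝ} (hlo : ∀ n : ℕ, n ^ k ≤ fr f n) {τ C : ℝ} (hC : 1 ≤ C)
    {M W : ℕ} (hM1 : 1 ≤ M) {ε : ℝ} (hMV : (JJ (CB k (range (M + 1))) (fsR f) : ℝ) ≤ (M : ℝ) ^ ((k : ℝ) + ε))
    (hSF : ∀ β : ℝ, |β| ≤ 1 / 2 → ‖SF f M β‖ * ‖1 - KK W β‖ ≤ C * (M : ℝ) ^ (1 - τ)) (S : Finset ℕ)
    (hS : ∀ N ∈ S, W ≤ N ∧ N ≤ M ^ k) :
    ∑ N ∈ S, ((rep f s N : ℝ) - 1 / (W : ℝ) * ∑ h ∈ range W, (rep f s (N - h) : ℝ)) ^ 2 ≤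
      C ^ 2 * (M : ℝ) ^ (2 * (s : ℝ) - k - 2 * τ + ε) := by
  classical
  have hMr : (1 : ℝ) ≤ M := by exact_mod_cast hM1
  have hMpos : (0 : ℝ) < M := by linarith
  -- small variables
  have hMx : ∀ n : ℕ, n ≤ M ^ k → ∀ x : ℕ, x ^ k ≤ n → x ≤ M := by
    intro n hn x hx
    exact (Nat.pow_le_pow_iff_left (by omega)).1 (hx.trans hn)
  have hrep : ∀ n : ℕ, n ≤ M ^ k → (rep f s n : ℝ) =
      rr (CB k (Finset.Icc 1 M)) (fsR f) (CB (s - k) (Finset.Icc 1 M)) (fsR f) (fun _ => 1) (n : ℤ) := by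
    intro n hn
    rw [rr_split f k s M (by omega), rep_eq f k s M n hlo (hMx n hn)]
  have hB : ∀ α : ℝ, |α| ≤ 1 / 2 → ‖GGs (CB (s - k) (Finset.Icc 1 M)) (fsR f) (fun _ => 1) α‖ * ‖1 - KK W α‖ ≤
      (M : ℝ) ^ ((s : ℝ) - k - 1) * (C * (M : ℝ) ^ (1 - τ)) := by
    intro α hα
    rw [GGs_CB, norm_pow]
    have g1 : s - k = (s - k - 1) + 1 := by omega
    rw [g1, pow_succ, mul_assoc]
    have g2 : ‖SF f M α‖ ^ (s - k - 1) ≤ (M : ℝ) ^ ((s : ℝ) - k - 1) := by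
      have g3 : ((s : ℝ) - k - 1) = ((s - k - 1 : ℕ) : ℝ) := by
        have : s = (s - k - 1) + k + 1 := by omega
        have h5 : (s : ℝ) = ((s - k - 1 : ℕ) : ℝ) + k + 1 := by exact_mod_cast this
        linarith
      rw [g3, Real.rpow_natCast]
      exact pow_le_pow_left₀ (norm_nonneg _) (SF_le f M α) _
    exact mul_le_mul g2 (hSF α hα) (by positivity) (by positivity)
  have hmain := Pool.Agent.J4H30.WT.var_bound (CB k (Finset.Icc 1 M)) (fsR f) (CB (s - k) (Finset.Icc 1 M)) (fsR f) (fun _ => (1 : ℝ))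
    (W := W) (by positivity) hB (S.map Nat.castEmbedding)
  rw [Finset.sum_map] at hmain
  have hsum : ∑ N ∈ S, ((rep f s N : ℝ) - 1 / (W : ℝ) * ∑ h ∈ range W, (rep f s (N - h) : ℝ)) ^ 2 =
      ∑ N ∈ S, (rr (CB k (Finset.Icc 1 M)) (fsR f) (CB (s - k) (Finset.Icc 1 M)) (fsR f) (fun _ => 1) (Nat.castEmbedding N : ℤ) -
        1 / (W : ℝ) * ∑ h ∈ range W, rr (CB k (Finset.Icc 1 M)) (fsR f) (CB (s - k) (Finset.Icc 1 M)) (fsR f) (fun _ => 1)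
          ((Nat.castEmbedding N : ℤ) - h)) ^ 2 := by
    refine Finset.sum_congr rfl fun N hN => ?_
    obtain ⟨hN1, hN2⟩ := hS N hN
    rw [hrep N hN2]
    congr 3
    refine Finset.sum_congr rfl fun h hh => ?_
    have hh' := Finset.mem_range.1 hh
    rw [hrep (N - h) (by omega)]
    congr 1
    simp only [Nat.castEmbedding_apply]
    omega
  rw [hsum]
  refine hmain.trans ?_
  have hJJ : (JJ (CB k (Finset.Icc 1 M)) (fsR f) : ℝ) ≤ (M : ℝ) ^ ((k : ℝ) + ε) := by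
    refine le_trans ?_ hMV
    exact_mod_cast JJ_mono (by
      intro x hx
      simp only [CB, Fintype.mem_piFinset, Finset.mem_Icc, Finset.mem_range] at hx ⊢
      intro i
      have := (hx i).2
      omega) _
  calc ((M : ℝ) ^ ((s : ℝ) - k - 1) * (C * (M : ℝ) ^ (1 - τ))) ^ 2 * (JJ (CB k (Finset.Icc 1 M)) (fsR f) : ℝ)
      ≤ ((M : ℝ) ^ ((s : ℝ) - k - 1) * (C * (M : ℝ) ^ (1 - τ))) ^ 2 * (M : ℝ) ^ ((k : ℝ) + ε) := by
        apply mul_le_mul_of_nonneg_left hJJ (by positivity)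
    _ = C ^ 2 * ((M : ℝ) ^ ((s : ℝ) - k - 1) * (M : ℝ) ^ ((s : ℝ) - k - 1) * ((M : ℝ) ^ (1 - τ) * (M : ℝ) ^ (1 - τ)) * (M : ℝ) ^ ((k : ℝ) + ε)) := by ring
    _ = _ := by
        rw [← Real.rpow_add hMpos, ← Real.rpow_add hMpos, ← Real.rpow_add hMpos, ← Real.rpow_add hMpos]
        congr 2
        ring

end Pool.Agent.J4H7.AG
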