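import Pool.Agent.J4H7.AG.Avg
import Pool.Agent.J4H7.AG.Vr

set_option autoImplicit false

/-!
# Waring's problem for generic polynomials: the asymptotic formula for almost all integers (helper7)
-/

namespace Pool.Agent.J4H7.AG

open Finset MeasureTheory Filter Topology
open Pool.Agent.J4H7.WE (JJ FFs KK)
open Pool.Agent.J4H7.AF
open Pool.Agent.J4H7.WS (fr fsR)

/-- the length of the variables -/
noncomputable def MX (k X : ℕ) : ℕ := ⌈(X : ℝ) ^ (1 / (k : ℝ))⌉₊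

lemma MX_bd {k X : ℕ} (hk : 1 ≤ k) (hX : 1 ≤ X) : (X : ℝ) ^ (1 / (k : ℝ)) ≤ MX k X ∧ (MX k X : ℝ) ≤ 2 * (X : ℝ) ^ (1 / (k : ℝ)) ∧
    X ≤ MX k X ^ k ∧ 1 ≤ MX k X := by
  have hX1 : (1 : ℝ) ≤ X := by exact_mod_cast hX
  have hk0 : (k : ℝ) ≠ 0 := by
    have : k ≠ 0 := by omega
    exact_mod_cast this
  have hr1 : 1 ≤ (X : ℝ) ^ (1 / (k : ℝ)) := Real.one_le_rpow hX1 (by positivity)
  have h1 : (X : ℝ) ^ (1 / (k : ℝ)) ≤ MX k X := Nat.le_ceil _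
  have h2 : (MX k X : ℝ) < (X : ℝ) ^ (1 / (k : ℝ)) + 1 := Nat.ceil_lt_add_one (by linarith)
  refine ⟨h1, by linarith, ?_, ?_⟩
  · have h3 : (X : ℝ) ≤ ((MX k X ^ k : ℕ) : ℝ) := by
      push_cast
      calc (X : ℝ) = ((X : ℝ) ^ (1 / (k : ℝ))) ^ k := by
            rw [← Real.rpow_natCast, ← Real.rpow_mul (by positivity), one_div, inv_mul_cancel₀ hk0, Real.rpow_one]
        _ ≤ _ := pow_le_pow_left₀ (by linarith) h1 k
    exact_mod_cast h3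
  · have : (1 : ℝ) ≤ MX k X := hr1.trans h1
    exact_mod_cast this

/-- **the asymptotic formula for almost all integers**, error in terms of `X` -/
theorem dens {k s : ℕ} (hk : 2 ≤ k) (hs : k + 1 ≤ s) {f : ℝ → ℝ} {c : ℝ} (hc : 0 ≤ c) (hlo : ∀ n : ℕ, n ^ k ≤ fr f n)
    (hup : ∀ n : ℕ, 1 ≤ n → (fr f n : ℝ) ≤ ((n : ℝ) + c) ^ k) (hMV : MVf k f) {ρ τ C : ℝ} (hρ : 0 < ρ) (hρ1 : ρ ≤ 1 / 4) (hτ : 0 < τ)
    (hC : 1 ≤ C) (hSF : ∀ M : ℕ, 1 ≤ M → ∀ β : ℝ, |β| ≤ 1 / 2 →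
      ‖SF f M β‖ * ‖1 - KK ⌈(M : ℝ) ^ ((k : ℝ) - ρ)⌉₊ β‖ ≤ C * (M : ℝ) ^ (1 - τ)) :
    ∃ δ : ℝ, 0 < δ ∧ ∃ C1 : ℝ, 1 ≤ C1 ∧ ∀ᶠ X : ℕ in atTop,
      ({N : ℕ | N < X ∧ (X : ℝ) ^ ((s : ℝ) / k - 1 - δ) < |(rep f s N : ℝ) - cS k s * (N : ℝ) ^ ((s : ℝ) / k - 1)|}.ncard : ℝ) ≤
        C1 * (X : ℝ) ^ (1 - δ) := by
  classical
  have hk0 : (0 : ℝ) < k := by exact_mod_cast (by omega : 0 < k)
  have hk2 : (2 : ℝ) ≤ k := by exact_mod_cast hk
  have hs0 : (0 : ℝ) < s := by exact_mod_cast (by omega : 0 < s)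
  obtain ⟨CA, hCA, HA⟩ := avg hk hs hc hlo hup
  set a : ℝ := (s : ℝ) / k with ha
  have ha1 : 1 < a := by
    rw [ha, lt_div_iff₀ hk0, one_mul]
    exact_mod_cast (by omega : k < s)
  set δ : ℝ := min (τ / (4 * k)) (ρ / (4 * k)) with hδ
  have hδ0 : 0 < δ := lt_min (by positivity) (by positivity)
  have hδτ : δ ≤ τ / (4 * k) := min_le_left _ _
  have hδρ : δ ≤ ρ / (4 * k) := min_le_right _ _
  set E : ℝ := 2 * (s : ℝ) - k - 2 * τ + τ with hE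
  set C2 : ℝ := 4 * (C ^ 2 * 2 ^ |E|) with hC2
  have hC20 : 0 ≤ C2 := by positivity
  refine ⟨δ, hδ0, 2 + C2, by linarith, ?_⟩
  have hi : (0 : ℝ) < 1 / (k : ℝ) := by positivity
  have hMt : Tendsto (fun X : ℕ => MX k X) atTop atTop :=
    tendsto_nat_ceil_atTop.comp ((tendsto_rpow_atTop hi).comp tendsto_natCast_atTop_atTop)
  have e1 := hMt.eventually (hMV τ hτ)
  have ev : ∀ u : ℝ, 0 < u → ∀ B : ℝ, ∀ᶠ X : ℕ in atTop, B ≤ (X : ℝ) ^ u := fun u hu B =>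
    ((tendsto_rpow_atTop hu).comp tendsto_natCast_atTop_atTop).eventually (eventually_ge_atTop B)
  filter_upwards [e1, ev (ρ / (2 * k)) (by positivity) (4 * (2 ^ k + 1)), ev (ρ / (4 * k)) (by positivity) (2 * (CA * (2 ^ k + 2))),
    eventually_ge_atTop 1] with X h1 h2 h3 hX
  have hX1 : (1 : ℝ) ≤ X := by exact_mod_cast hX
  have hX0 : (0 : ℝ) < X := by linarith
  obtain ⟨m1, m2, m3, m4⟩ := MX_bd (k := k) (by omega) hX
  set M : ℕ := MX k X with hM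
  have hMr : (1 : ℝ) ≤ M := by exact_mod_cast m4
  have hM0 : (0 : ℝ) < M := by linarith
  have hpw : ∀ u : ℝ, ((X : ℝ) ^ (1 / (k : ℝ))) ^ u = (X : ℝ) ^ (u / k) := by
    intro u
    rw [← Real.rpow_mul hX0.le]
    congr 1
    ring
  have hkρ : (0 : ℝ) ≤ (k : ℝ) - ρ := by linarith
  have hWe : ((k : ℝ) - ρ) / k = 1 - ρ / k := by
    field_simp
  set W : ℕ := ⌈(M : ℝ) ^ ((k : ℝ) - ρ)⌉₊ with hW
  have hr1 : 1 ≤ (X : ℝ) ^ (1 / (k : ℝ)) := Real.one_le_rpow hX1 hi.le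
  have hW1 : (X : ℝ) ^ (1 - ρ / k) ≤ W := by
    rw [← hWe, ← hpw]
    exact (Real.rpow_le_rpow (by linarith) m1 hkρ).trans (Nat.le_ceil _)
  have hone : (1 : ℝ) ≤ (X : ℝ) ^ (1 - ρ / k) := by
    apply Real.one_le_rpow hX1
    rw [← hWe]
    positivity
  have hWpos : (0 : ℝ) < W := by linarith
  have hWn : 1 ≤ W := by
    have : (0 : ℝ) < W := hWpos
    have : 0 < W := by exact_mod_cast this
    omega
  have hW2 : (W : ℝ) ≤ (2 ^ k + 1) * (X : ℝ) ^ (1 - ρ / k) := by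
    have g1 : (W : ℝ) ≤ (M : ℝ) ^ ((k : ℝ) - ρ) + 1 := (Nat.ceil_lt_add_one (by positivity)).le
    have g2 : (M : ℝ) ^ ((k : ℝ) - ρ) ≤ (2 * (X : ℝ) ^ (1 / (k : ℝ))) ^ ((k : ℝ) - ρ) :=
      Real.rpow_le_rpow hM0.le m2 hkρ
    rw [Real.mul_rpow (by norm_num) (by positivity), hpw, hWe] at g2
    have g3 : (2 : ℝ) ^ ((k : ℝ) - ρ) ≤ 2 ^ k := by
      rw [← Real.rpow_natCast 2 k]
      exact Real.rpow_le_rpow_of_exponent_le (by norm_num) (by linarith)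
    have g4 : (2 : ℝ) ^ ((k : ℝ) - ρ) * (X : ℝ) ^ (1 - ρ / k) ≤ 2 ^ k * (X : ℝ) ^ (1 - ρ / k) :=
      mul_le_mul_of_nonneg_right g3 (by linarith)
    linarith
  -- the large `N`
  set Y : ℝ := (X : ℝ) ^ (1 - ρ / (2 * k)) with hY
  have hY0 : 0 < Y := Real.rpow_pos_of_pos hX0 _
  have hWY : 2 * (W : ℝ) ≤ Y := by
    have g1 : Y = (X : ℝ) ^ (1 - ρ / k) * (X : ℝ) ^ (ρ / (2 * k)) := by
      rw [hY, ← Real.rpow_add hX0]
      congr 1
      field_simp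
      ring
    rw [g1]
    have g2 : 0 ≤ (X : ℝ) ^ (1 - ρ / k) := by linarith
    nlinarith
  set T : Finset ℕ := (range X).filter fun N => Y ≤ N ∧ (X : ℝ) ^ (a - 1 - δ) < |(rep f s N : ℝ) - cS k s * (N : ℝ) ^ (a - 1)| with hT
  have hTS : ∀ N ∈ T, W ≤ N ∧ N ≤ M ^ k := by
    intro N hN
    rw [hT, Finset.mem_filter, Finset.mem_range] at hN
    constructor
    · have : (W : ℝ) ≤ N := by linarith [hN.2.1]
      exact_mod_cast this
    · omega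
  have hvar := var_rep (ε := τ) (τ := τ) hk hs hlo hC m4 h1 (hSF M m4) T hTS
  -- each exceptional `N`
  have hbig : ∀ N ∈ T, ((X : ℝ) ^ (a - 1 - δ) / 2) ^ 2 ≤
      ((rep f s N : ℝ) - 1 / (W : ℝ) * ∑ h ∈ range W, (rep f s (N - h) : ℝ)) ^ 2 := by
    intro N hN
    rw [hT, Finset.mem_filter, Finset.mem_range] at hN
    obtain ⟨n1, n2, n3⟩ := hN
    have hNX : (N : ℝ) ≤ X := by exact_mod_cast n1.le
    have hN0 : (0 : ℝ) < N := by linarith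
    have g1 := HA N W hWn (by
      have : 2 * (W : ℝ) ≤ N := hWY.trans n2
      exact_mod_cast this)
    have g2 : (N : ℝ) ^ (a - 2) * W ≤ (2 ^ k + 1) * (X : ℝ) ^ (a - 1 - ρ / (2 * k)) := by
      have k1 : (N : ℝ) ^ (a - 2) * W = (N : ℝ) ^ (a - 1) * (W / N) := by
        rw [show a - 1 = (a - 2) + 1 by ring, Real.rpow_add_one hN0.ne']
        field_simp
      have k2 : (N : ℝ) ^ (a - 1) ≤ (X : ℝ) ^ (a - 1) := Real.rpow_le_rpow hN0.le hNX (by linarith)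
      have k3 : (W : ℝ) / N ≤ (2 ^ k + 1) * (X : ℝ) ^ (-(ρ / (2 * k))) := by
        rw [div_le_iff₀ hN0]
        calc (W : ℝ) ≤ (2 ^ k + 1) * (X : ℝ) ^ (1 - ρ / k) := hW2
          _ = (2 ^ k + 1) * ((X : ℝ) ^ (-(ρ / (2 * k))) * Y) := by
              rw [hY, ← Real.rpow_add hX0]
              congr 2
              field_simp
              ring
          _ ≤ (2 ^ k + 1) * ((X : ℝ) ^ (-(ρ / (2 * k))) * N) := by
              apply mul_le_mul_of_nonneg_left _ (by positivity)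
              exact mul_le_mul_of_nonneg_left n2 (by positivity)
          _ = _ := by ring
      rw [k1]
      calc (N : ℝ) ^ (a - 1) * (W / N) ≤ (X : ℝ) ^ (a - 1) * ((2 ^ k + 1) * (X : ℝ) ^ (-(ρ / (2 * k)))) :=
            mul_le_mul k2 k3 (by positivity) (by positivity)
        _ = (2 ^ k + 1) * ((X : ℝ) ^ (a - 1) * (X : ℝ) ^ (-(ρ / (2 * k)))) := by ring
        _ = _ := by
          rw [← Real.rpow_add hX0]
          congr 2
    have g3 : (N : ℝ) ^ (((s : ℝ) - 1) / k) / W ≤ (X : ℝ) ^ (a - 1 - ρ / (2 * k)) := by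
      have hsb : 0 ≤ ((s : ℝ) - 1) / k := by
        have : (1 : ℝ) ≤ s := by exact_mod_cast (by omega : 1 ≤ s)
        exact div_nonneg (by linarith) hk0.le
      rw [div_le_iff₀ hWpos]
      calc (N : ℝ) ^ (((s : ℝ) - 1) / k) ≤ (X : ℝ) ^ (((s : ℝ) - 1) / k) := Real.rpow_le_rpow hN0.le hNX hsb
        _ ≤ (X : ℝ) ^ (a - 1 - ρ / (2 * k) + (1 - ρ / k)) := by
            apply Real.rpow_le_rpow_of_exponent_le hX1
            have : ρ / (2 * k) + ρ / k ≤ 1 / k := by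
              have e : ρ / (2 * k) + ρ / k = (3 * ρ / 2) / k := by
                field_simp
                ring
              rw [e]
              exact div_le_div_of_nonneg_right (by linarith) hk0.le
            have : ((s : ℝ) - 1) / k = a - 1 / k := by
              rw [ha]
              ring
            rw [this]
            linarith
        _ = (X : ℝ) ^ (a - 1 - ρ / (2 * k)) * (X : ℝ) ^ (1 - ρ / k) := Real.rpow_add hX0 _ _
        _ ≤ _ := mul_le_mul_of_nonneg_left hW1 (by positivity)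
    have g4 : CA * ((N : ℝ) ^ (a - 2) * W + (N : ℝ) ^ (((s : ℝ) - 1) / k) / W) ≤ (X : ℝ) ^ (a - 1 - δ) / 2 := by
      have k1 : (X : ℝ) ^ (a - 1 - ρ / (2 * k)) * (X : ℝ) ^ (ρ / (4 * k)) ≤ (X : ℝ) ^ (a - 1 - δ) := by
        rw [← Real.rpow_add hX0]
        apply Real.rpow_le_rpow_of_exponent_le hX1
        have : ρ / (2 * k) = ρ / (4 * k) + ρ / (4 * k) := by
          field_simp
          ring
        rw [this]
        linarith
      have k2 : CA * ((N : ℝ) ^ (a - 2) * W + (N : ℝ) ^ (((s : ℝ) - 1) / k) / W) ≤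
          (CA * (2 ^ k + 2)) * (X : ℝ) ^ (a - 1 - ρ / (2 * k)) := by
        calc CA * ((N : ℝ) ^ (a - 2) * W + (N : ℝ) ^ (((s : ℝ) - 1) / k) / W) ≤
              CA * ((2 ^ k + 1) * (X : ℝ) ^ (a - 1 - ρ / (2 * k)) + (X : ℝ) ^ (a - 1 - ρ / (2 * k))) :=
              mul_le_mul_of_nonneg_left (add_le_add g2 g3) (by linarith)
          _ = _ := by ring
      have k3 : 0 < (X : ℝ) ^ (a - 1 - ρ / (2 * k)) := Real.rpow_pos_of_pos hX0 _
      nlinarith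
    have g5 : (X : ℝ) ^ (a - 1 - δ) / 2 ≤ |(rep f s N : ℝ) - 1 / (W : ℝ) * ∑ h ∈ range W, (rep f s (N - h) : ℝ)| := by
      have := abs_sub_le (rep f s N : ℝ) (1 / (W : ℝ) * ∑ h ∈ range W, (rep f s (N - h) : ℝ)) (cS k s * (N : ℝ) ^ (a - 1))
      linarith
    rw [← sq_abs ((rep f s N : ℝ) - 1 / (W : ℝ) * ∑ h ∈ range W, (rep f s (N - h) : ℝ))]
    exact pow_le_pow_left₀ (by positivity) g5 2
  have hcard : (T.card : ℝ) ≤ C2 * (X : ℝ) ^ (1 - δ) := by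
    have g1 : (T.card : ℝ) * ((X : ℝ) ^ (a - 1 - δ) / 2) ^ 2 ≤ C ^ 2 * (M : ℝ) ^ E := by
      calc (T.card : ℝ) * ((X : ℝ) ^ (a - 1 - δ) / 2) ^ 2 = ∑ _N ∈ T, ((X : ℝ) ^ (a - 1 - δ) / 2) ^ 2 := by simp
        _ ≤ _ := Finset.sum_le_sum hbig
        _ ≤ _ := hvar
    have g2 : (M : ℝ) ^ E ≤ 2 ^ |E| * (X : ℝ) ^ (E / k) := by
      rw [← hpw]
      exact Pool.Agent.J4H87.AF.two_rpow_bound (by linarith) m1 m2
    have g3 : ((X : ℝ) ^ (a - 1 - δ) / 2) ^ 2 = (X : ℝ) ^ (2 * (a - 1 - δ)) / 4 := by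
      rw [div_pow, ← Real.rpow_natCast, ← Real.rpow_mul hX0.le]
      norm_num
      ring_nf
    rw [g3] at g1
    have g4 : 0 < (X : ℝ) ^ (2 * (a - 1 - δ)) := Real.rpow_pos_of_pos hX0 _
    have g5 : (T.card : ℝ) * (X : ℝ) ^ (2 * (a - 1 - δ)) ≤ C2 * (X : ℝ) ^ (E / k) := by
      rw [hC2]
      have := mul_le_mul_of_nonneg_left g2 (by positivity : (0 : ℝ) ≤ C ^ 2)
      linarith
    have g6 : (X : ℝ) ^ (E / k) ≤ (X : ℝ) ^ (1 - δ) * (X : ℝ) ^ (2 * (a - 1 - δ)) := by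
      rw [← Real.rpow_add hX0]
      apply Real.rpow_le_rpow_of_exponent_le hX1
      have k1 : E / k = 2 * a - 1 - τ / k := by
        rw [hE, ha]
        field_simp
        ring
      rw [k1]
      have k2 : τ / k = 4 * (τ / (4 * k)) := by
        field_simp
      rw [k2]
      linarith
    have g7 : (T.card : ℝ) * (X : ℝ) ^ (2 * (a - 1 - δ)) ≤ C2 * (X : ℝ) ^ (1 - δ) * (X : ℝ) ^ (2 * (a - 1 - δ)) := by
      calc _ ≤ C2 * (X : ℝ) ^ (E / k) := g5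
        _ ≤ C2 * ((X : ℝ) ^ (1 - δ) * (X : ℝ) ^ (2 * (a - 1 - δ))) := mul_le_mul_of_nonneg_left g6 hC20
        _ = _ := by ring
    exact le_of_mul_le_mul_right g7 g4
  -- the small `N`
  have hsub : {N : ℕ | N < X ∧ (X : ℝ) ^ (a - 1 - δ) < |(rep f s N : ℝ) - cS k s * (N : ℝ) ^ (a - 1)|} ⊆
      ↑(range (⌊Y⌋₊ + 1) ∪ T) := by
    intro N hN
    obtain ⟨n1, n2⟩ := hN
    rw [Finset.mem_coe, Finset.mem_union]
    rcases le_or_gt Y (N : ℝ) with h | h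
    · right
      rw [hT, Finset.mem_filter, Finset.mem_range]
      exact ⟨n1, h, n2⟩
    · left
      rw [Finset.mem_range]
      have := Nat.le_floor h.le
      omega
  have hcount := Set.ncard_le_ncard hsub (Finset.finite_toSet _)
  rw [Set.ncard_coe_finset] at hcount
  have hcount2 := hcount.trans (Finset.card_union_le _ _)
  rw [Finset.card_range] at hcount2
  have hYf : (⌊Y⌋₊ : ℝ) ≤ Y := Nat.floor_le hY0.le
  have hYδ : Y ≤ (X : ℝ) ^ (1 - δ) := by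
    apply Real.rpow_le_rpow_of_exponent_le hX1
    have : ρ / (2 * k) = 2 * (ρ / (4 * k)) := by
      field_simp
      ring
    rw [this]
    linarith
  have hX1δ : (1 : ℝ) ≤ (X : ℝ) ^ (1 - δ) := by
    apply Real.one_le_rpow hX1
    have : ρ / (4 * k) ≤ 1 := by
      rw [div_le_one (by positivity)]
      nlinarith
    linarith
  calc _ ≤ ((⌊Y⌋₊ + 1 + T.card : ℕ) : ℝ) := by exact_mod_cast hcount2
    _ = (⌊Y⌋₊ : ℝ) + 1 + T.card := by push_cast; ring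
    _ ≤ (2 + C2) * (X : ℝ) ^ (1 - δ) := by
      have : (2 + C2) * (X : ℝ) ^ (1 - δ) = (X : ℝ) ^ (1 - δ) + (X : ℝ) ^ (1 - δ) + C2 * (X : ℝ) ^ (1 - δ) := by ring
      linarith

end Pool.Agent.J4H7.AG
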