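import Pool.Agent.J4H7.AG.Dens
import Pool.Agent.J4H7.AG.Bad

set_option autoImplicit false

/-!
# Waring's problem for generic polynomials: almost all integers, real coefficients (helper7)
-/

namespace Pool.Agent.J4H7.AG

open Finset MeasureTheory Filter Topology
open Pool.Agent.J4H7.AF
open Pool.Agent.J4H7.WS (fr)

/-- **from the shifted polynomial to the polynomial, almost all integers** -/
theorem dens_real {k s c : ℕ} (hk : 2 ≤ k) (hs : k + 1 ≤ s) {f : ℝ → ℝ} (hg : ∀ n : ℕ, n ^ k ≤ fr (fun z => f (z + c)) n)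
    {δ₀ C1 : ℝ} (hδ₀ : 0 < δ₀) (hC1 : 1 ≤ C1) (h : ∀ᶠ X : ℕ in atTop,
      ({N : ℕ | N < X ∧ (X : ℝ) ^ ((s : ℝ) / k - 1 - δ₀) <
        |(rep (fun z => f (z + c)) s N : ℝ) - cS k s * (N : ℝ) ^ ((s : ℝ) / k - 1)|}.ncard : ℝ) ≤ C1 * (X : ℝ) ^ (1 - δ₀)) :
    ∃ δ : ℝ, 0 < δ ∧ ∀ᶠ X : ℕ in atTop,
      ({N : ℕ | N < X ∧ (N : ℝ) ^ ((s : ℝ) / k - 1 - δ) < |(repZ f s N : ℝ) - cS k s * (N : ℝ) ^ ((s : ℝ) / k - 1)|}.ncard : ℝ) ≤
        (X : ℝ) ^ (1 - δ) := by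
  classical
  obtain ⟨s', rfl⟩ : ∃ s', s = s' + 1 := ⟨s - 1, by omega⟩
  have hk0 : (0 : ℝ) < k := by exact_mod_cast (by omega : 0 < k)
  set a : ℝ := ((s' + 1 : ℕ) : ℝ) / k with ha
  have ha1 : 1 < a := by
    rw [ha, lt_div_iff₀ hk0, one_mul]
    exact_mod_cast (by omega : k < s' + 1)
  set δ : ℝ := min δ₀ (1 / (2 * k)) with hδ
  have hδ0 : 0 < δ := lt_min hδ₀ (by positivity)
  have hδ1 : δ ≤ δ₀ := min_le_left _ _
  have hδ2 : δ ≤ 1 / (2 * k) := min_le_right _ _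
  set θ : ℝ := δ / (4 * a) with hθ
  have ha0 : 0 < a := by linarith
  have hθ0 : 0 < θ := by positivity
  have hθδ : θ ≤ δ / 4 := by
    rw [hθ]
    apply div_le_div_of_nonneg_left hδ0.le (by norm_num) (by linarith)
  have hθa : θ * a = δ / 4 := by
    rw [hθ]
    field_simp
  choose T hT1 hT2 using fun N : ℕ => repZ_split (s' := s') (c := c) (N := N) (by omega : 1 ≤ k) hg
  set C2 : ℝ := ((s' : ℝ) + 1) * (((c : ℝ) + 1) * ((4 : ℝ) + c + 1) ^ s') with hC2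
  have hC20 : 0 ≤ C2 := by positivity
  refine ⟨θ / 2, by positivity, ?_⟩
  have ev : ∀ u : ℝ, 0 < u → ∀ B : ℝ, ∀ᶠ X : ℕ in atTop, B ≤ (X : ℝ) ^ u := fun u hu B =>
    ((tendsto_rpow_atTop hu).comp tendsto_natCast_atTop_atTop).eventually (eventually_ge_atTop B)
  filter_upwards [h, ev (θ / 2) (by positivity) (C1 + C2 + 2), ev (δ / 2) (by positivity) 2, eventually_ge_atTop 1,
    eventually_ge_atTop (BB0 f c (s' + 1))] with X h1 h2 h3 hX hXB
  have hX1 : (1 : ℝ) ≤ X := by exact_mod_cast hX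
  have hX0 : (0 : ℝ) < X := by linarith
  set E1 : Set ℕ := {N : ℕ | N < X ∧ (X : ℝ) ^ (a - 1 - δ₀) < |(rep (fun z => f (z + c)) (s' + 1) N : ℝ) - cS k (s' + 1) * (N : ℝ) ^ (a - 1)|}
    with hE1
  set E2 : Finset ℕ := (range X).filter fun N => (X : ℝ) ^ (a - 1 - δ) < ((T N).card : ℝ) with hE2
  set Y : ℝ := (X : ℝ) ^ (1 - θ) with hY
  have hY0 : 0 < Y := Real.rpow_pos_of_pos hX0 _
  -- the second set
  obtain ⟨m1, m2⟩ := size_M (k := k) (by omega) hX hXB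
  set r : ℝ := (X : ℝ) ^ (1 / (k : ℝ)) with hr
  have hr1 : 1 ≤ r := Real.one_le_rpow hX1 (by positivity)
  have hbs := bad_sum (by omega : 1 ≤ k) hg m1 T hT1
  have hE2c : (E2.card : ℝ) ≤ C2 * (X : ℝ) ^ (1 - δ) := by
    have g1 : (E2.card : ℝ) * (X : ℝ) ^ (a - 1 - δ) ≤ C2 * (X : ℝ) ^ ((s' : ℝ) / k) := by
      calc (E2.card : ℝ) * (X : ℝ) ^ (a - 1 - δ) = ∑ _N ∈ E2, (X : ℝ) ^ (a - 1 - δ) := by simp
        _ ≤ ∑ N ∈ E2, ((T N).card : ℝ) := Finset.sum_le_sum fun N hN => (Finset.mem_filter.1 hN).2.le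
        _ ≤ ∑ N ∈ range X, ((T N).card : ℝ) :=
            Finset.sum_le_sum_of_subset_of_nonneg (Finset.filter_subset _ _) fun _ _ _ => by positivity
        _ = ((∑ N ∈ range X, (T N).card : ℕ) : ℝ) := by push_cast; rfl
        _ ≤ (((s' + 1) * ((c + 1) * (2 * (⌊(X : ℝ) ^ (1 / (k : ℝ))⌋₊ + 1) + c + 1) ^ s') : ℕ) : ℝ) := by exact_mod_cast hbs
        _ = ((s' : ℝ) + 1) * (((c : ℝ) + 1) * (((2 * (⌊(X : ℝ) ^ (1 / (k : ℝ))⌋₊ + 1) : ℕ) : ℝ) + c + 1) ^ s') := by push_cast; rfl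
        _ ≤ ((s' : ℝ) + 1) * (((c : ℝ) + 1) * ((((4 : ℝ) + c + 1) * r) ^ s')) := by
            have k1 : ((2 * (⌊(X : ℝ) ^ (1 / (k : ℝ))⌋₊ + 1) : ℕ) : ℝ) + c + 1 ≤ ((4 : ℝ) + c + 1) * r := by
              have : (c : ℝ) + 1 ≤ ((c : ℝ) + 1) * r := le_mul_of_one_le_right (by positivity) hr1
              linarith
            gcongr
        _ = C2 * r ^ s' := by
            rw [mul_pow, hC2]
            ring
        _ = C2 * (X : ℝ) ^ ((s' : ℝ) / k) := by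
            rw [hr, ← Real.rpow_natCast, ← Real.rpow_mul hX0.le]
            congr 2
            ring
    have g2 : (X : ℝ) ^ ((s' : ℝ) / k) ≤ (X : ℝ) ^ (1 - δ) * (X : ℝ) ^ (a - 1 - δ) := by
      rw [← Real.rpow_add hX0]
      apply Real.rpow_le_rpow_of_exponent_le hX1
      have k1 : (s' : ℝ) / k = a - 1 / k := by
        rw [ha]
        push_cast
        ring
      have k2 : (1 : ℝ) / k = 1 / (2 * k) + 1 / (2 * k) := by
        field_simp
        norm_num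
      rw [k1, k2]
      linarith
    have g3 : 0 < (X : ℝ) ^ (a - 1 - δ) := Real.rpow_pos_of_pos hX0 _
    have g4 : (E2.card : ℝ) * (X : ℝ) ^ (a - 1 - δ) ≤ (C2 * (X : ℝ) ^ (1 - δ)) * (X : ℝ) ^ (a - 1 - δ) := by
      calc _ ≤ C2 * (X : ℝ) ^ ((s' : ℝ) / k) := g1
        _ ≤ C2 * ((X : ℝ) ^ (1 - δ) * (X : ℝ) ^ (a - 1 - δ)) := mul_le_mul_of_nonneg_left g2 hC20
        _ = _ := by ring
    exact le_of_mul_le_mul_right g4 g3
  -- the inclusion
  have hsub : {N : ℕ | N < X ∧ (N : ℝ) ^ (a - 1 - θ / 2) < |(repZ f (s' + 1) N : ℝ) - cS k (s' + 1) * (N : ℝ) ^ (a - 1)|} ⊆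
      E1 ∪ ↑(E2 ∪ range (⌊Y⌋₊ + 1)) := by
    intro N hN
    obtain ⟨n1, n2⟩ := hN
    by_contra hcon
    rw [Set.mem_union, Finset.mem_coe, Finset.mem_union, not_or, not_or] at hcon
    obtain ⟨c1, c2, c3⟩ := hcon
    have hNX : (N : ℝ) ≤ X := by exact_mod_cast n1.le
    have hYN : Y ≤ N := by
      by_contra hlt
      push Not at hlt
      apply c3
      rw [Finset.mem_range]
      have := Nat.le_floor hlt.le
      omega
    have hN0 : (0 : ℝ) < N := by linarith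
    have hN1 : (1 : ℝ) ≤ N := by
      have : 0 < N := by exact_mod_cast hN0
      exact_mod_cast this
    have d1 : |(rep (fun z => f (z + c)) (s' + 1) N : ℝ) - cS k (s' + 1) * (N : ℝ) ^ (a - 1)| ≤ (X : ℝ) ^ (a - 1 - δ) := by
      have : ¬ (X : ℝ) ^ (a - 1 - δ₀) < |(rep (fun z => f (z + c)) (s' + 1) N : ℝ) - cS k (s' + 1) * (N : ℝ) ^ (a - 1)| := fun hlt => c1 ⟨n1, hlt⟩
      push Not at this
      exact this.trans (Real.rpow_le_rpow_of_exponent_le hX1 (by linarith))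
    have d2 : ((T N).card : ℝ) ≤ (X : ℝ) ^ (a - 1 - δ) := by
      by_contra hlt
      push Not at hlt
      exact c2 (Finset.mem_filter.2 ⟨Finset.mem_range.2 n1, hlt⟩)
    have d3 : |(repZ f (s' + 1) N : ℝ) - cS k (s' + 1) * (N : ℝ) ^ (a - 1)| ≤ 2 * (X : ℝ) ^ (a - 1 - δ) := by
      rw [hT2 N]
      push_cast
      have e1 : (rep (fun z => f (z + c)) (s' + 1) N : ℝ) + (T N).card - cS k (s' + 1) * (N : ℝ) ^ (a - 1) =
          ((rep (fun z => f (z + c)) (s' + 1) N : ℝ) - cS k (s' + 1) * (N : ℝ) ^ (a - 1)) + (T N).card := by ring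
      rw [e1]
      refine (abs_add_le _ _).trans ?_
      rw [abs_of_nonneg (by positivity : (0 : ℝ) ≤ ((T N).card : ℝ))]
      linarith
    have d4 : (X : ℝ) ^ (a - 1 - δ / 2) ≤ (N : ℝ) ^ (a - 1 - θ / 2) := by
      rcases le_or_gt 0 (a - 1 - θ / 2) with hpos | hneg
      · calc (X : ℝ) ^ (a - 1 - δ / 2) ≤ (X : ℝ) ^ ((1 - θ) * (a - 1 - θ / 2)) := by
              apply Real.rpow_le_rpow_of_exponent_le hX1
              nlinarith
          _ = Y ^ (a - 1 - θ / 2) := by rw [hY, ← Real.rpow_mul hX0.le]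
          _ ≤ _ := Real.rpow_le_rpow hY0.le hYN hpos
      · calc (X : ℝ) ^ (a - 1 - δ / 2) ≤ (X : ℝ) ^ (a - 1 - θ / 2) := by
              apply Real.rpow_le_rpow_of_exponent_le hX1
              linarith
          _ ≤ _ := Real.rpow_le_rpow_of_nonpos hN0 hNX hneg.le
    have d5 : 2 * (X : ℝ) ^ (a - 1 - δ) ≤ (X : ℝ) ^ (a - 1 - δ / 2) := by
      have e1 : (X : ℝ) ^ (a - 1 - δ / 2) = (X : ℝ) ^ (a - 1 - δ) * (X : ℝ) ^ (δ / 2) := by
        rw [← Real.rpow_add hX0]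
        congr 1
        ring
      rw [e1]
      have : 0 < (X : ℝ) ^ (a - 1 - δ) := Real.rpow_pos_of_pos hX0 _
      nlinarith
    linarith
  have hE1f : E1.Finite := (Finset.finite_toSet (range X)).subset fun N hN => by
    rw [Finset.mem_coe, Finset.mem_range]
    exact hN.1
  have hcount := Set.ncard_le_ncard hsub (hE1f.union (Finset.finite_toSet _))
  have hcount2 := hcount.trans (Set.ncard_union_le _ _)
  rw [Set.ncard_coe_finset] at hcount2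
  have hcount3 := hcount2.trans (Nat.add_le_add_left (Finset.card_union_le _ _) _)
  rw [Finset.card_range] at hcount3
  have hYf : (⌊Y⌋₊ : ℝ) ≤ Y := Nat.floor_le hY0.le
  have hYb : (X : ℝ) ^ (1 - δ) ≤ Y := Real.rpow_le_rpow_of_exponent_le hX1 (by linarith)
  have hYb0 : (X : ℝ) ^ (1 - δ₀) ≤ Y := Real.rpow_le_rpow_of_exponent_le hX1 (by linarith)
  have hY1 : 1 ≤ Y := by
    apply Real.one_le_rpow hX1
    have : (1 : ℝ) / (2 * k) ≤ 1 := by
      rw [div_le_one (by positivity)]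
      have : (2 : ℝ) ≤ k := by exact_mod_cast hk
      linarith
    linarith
  have hfin : (C1 + C2 + 2) * Y ≤ (X : ℝ) ^ (1 - θ / 2) := by
    have e1 : (X : ℝ) ^ (1 - θ / 2) = (X : ℝ) ^ (θ / 2) * Y := by
      rw [hY, ← Real.rpow_add hX0]
      congr 1
      ring
    rw [e1]
    exact mul_le_mul_of_nonneg_right h2 hY0.le
  calc _ ≤ ((E1.ncard + (E2.card + (⌊Y⌋₊ + 1)) : ℕ) : ℝ) := by exact_mod_cast hcount3
    _ = (E1.ncard : ℝ) + (E2.card : ℝ) + (⌊Y⌋₊ : ℝ) + 1 := by push_cast; ring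
    _ ≤ C1 * Y + C2 * Y + Y + Y := by
        have k1 : C1 * (X : ℝ) ^ (1 - δ₀) ≤ C1 * Y := mul_le_mul_of_nonneg_left hYb0 (by linarith)
        have k2 : C2 * (X : ℝ) ^ (1 - δ) ≤ C2 * Y := mul_le_mul_of_nonneg_left hYb hC20
        linarith
    _ = (C1 + C2 + 2) * Y := by ring
    _ ≤ _ := hfin

end Pool.Agent.J4H7.AG
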