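import Pool.Agent.J4H7.AF.Main
import Pool.Agent.J4H7.AG.Real

set_option autoImplicit false

/-!
# Waring's problem for generic polynomials: the asymptotic formula for almost all integers, main theorem (helper7)
-/

namespace Pool.Agent.J4H7.AG

open Finset MeasureTheory Filter Topology
open Pool.Agent.J4H7.AF
open Pool.Agent.J4H7.WE (JJ FFs KK)
open Pool.Agent.J4H7.WS (Fn ESall fr fsR)
open Pool.Agent.J4H7.WT (PT Tc ae_shift Tc_pos shift_eq ana_holds ae_DC_pi)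

/-- the analytic data -/
theorem data (k : ℕ) (hk : 2 ≤ k) : ∀ᵐ α : Fin k → ℝ, (∀ i, 0 < α i) →
    MVf k (PT k α) ∧ ∃ ρ : ℝ, 0 < ρ ∧ ρ ≤ 1 / 4 ∧ ∃ τ : ℝ, 0 < τ ∧ ∃ C : ℝ, 1 ≤ C ∧ ∀ M : ℕ, 1 ≤ M → ∀ β : ℝ, |β| ≤ 1 / 2 →
      ‖SF (PT k α) M β‖ * ‖1 - KK ⌈(M : ℝ) ^ ((k : ℝ) - ρ)⌉₊ β‖ ≤ C * (M : ℝ) ^ (1 - τ) := by
  filter_upwards [mv k hk, ae_DC_pi (⟨k - 1, by omega⟩ : Fin k)] with α hM hD hα
  obtain ⟨cD, hcD, hD⟩ := hD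
  obtain ⟨hF, hE⟩ := ana_holds k hk α hα
  exact ⟨hM hα, sup k hk (PT k α) hF (hE cD hcD hD)⟩

/-- **the asymptotic formula for almost all integers, `k + 1` and more summands** -/
theorem main_dens (k : ℕ) (hk : 2 ≤ k) : ∀ᵐ α : Fin k → ℝ, ∀ s : ℕ, k + 1 ≤ s → ∃ δ : ℝ, 0 < δ ∧ ∃ X₀ : ℕ, ∀ X : ℕ, X₀ ≤ X →
      ({N : ℕ | N < X ∧ (N : ℝ) ^ ((s : ℝ) / k - 1 - δ) <
        |({x : Fin s → ℕ | (∀ i, 1 ≤ x i) ∧ ∑ i, ⌊(x i : ℝ) ^ k + ∑ j : Fin k, α j * (x i : ℝ) ^ (j : ℕ)⌋ = (N : ℤ)}.ncard : ℝ) -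
          Real.Gamma (1 + 1 / k) ^ s / Real.Gamma ((s : ℝ) / k) * (N : ℝ) ^ ((s : ℝ) / k - 1)|}.ncard : ℝ) ≤ (X : ℝ) ^ (1 - δ) := by
  filter_upwards [ae_shift (data k hk)] with α hα s hs
  obtain ⟨c, hc⟩ := Tc_pos k α
  obtain ⟨h1, ρ, hρ, hρ1, τ, hτ, C, hC, H⟩ := hα c hc
  have e1 : (fun z : ℝ => PT k α (z + c)) = PT k (Tc k c α) := by
    funext z
    unfold PT
    exact shift_eq k c α z
  have hg : ∀ n : ℕ, n ^ k ≤ fr (fun z => PT k α (z + c)) n := by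
    rw [e1]
    exact PT_lo hc
  obtain ⟨δ₀, hδ₀, C1, hC1, h2⟩ := dens hk hs (Finset.sum_nonneg fun i _ => (hc i).le) (PT_lo hc)
    (fun n hn => PT_hi (by omega) hc n hn) h1 hρ hρ1 hτ hC H
  rw [← e1] at h2
  obtain ⟨δ, hδ, h3⟩ := dens_real hk hs hg hδ₀ hC1 h2
  exact ⟨δ, hδ, eventually_atTop.1 h3⟩

end Pool.Agent.J4H7.AG
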