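import Pool.Agent.J4H7.AG.Main

set_option autoImplicit false

/-!
# Waring's problem for generic polynomials: the asymptotic formula with a power saving (helper7)
-/

namespace Pool.Agent.J4H7.AG

open Finset MeasureTheory Filter Topology
open Pool.Agent.J4H7.AF
open Pool.Agent.J4H7.WE (JJ FFs KK)
open Pool.Agent.J4H7.WS (Fn ESall fr fsR)
open Pool.Agent.J4H7.WT (PT Tc ae_shift Tc_pos shift_eq ana_holds ae_DC_pi)

/-- the tuples with a small component, pointwise -/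
theorem bad_pow {k s' c : ℕ} (hk : 2 ≤ k) (hs : 2 * k ≤ s') {f : ℝ → ℝ} (hg : ∀ n : ℕ, n ^ k ≤ fr (fun z => f (z + c)) n)
    (hMV : MVf k fun z => f (z + c)) (T : ℕ → Finset (Fin (s' + 1) → ℕ))
    (hT1 : ∀ N, ∀ x ∈ T N, (∀ i, 1 ≤ x i) ∧ ∑ i, ⌊f (x i)⌋ = (N : ℤ) ∧ ∃ i, x i ≤ c) : ∃ C0 : ℝ, 0 ≤ C0 ∧ ∀ᶠ N : ℕ in atTop,
    ((T N).card : ℝ) ≤ C0 * (N : ℝ) ^ (((s' + 1 : ℕ) : ℝ) / k - 1 - 1 / (2 * (k : ℝ))) := by
  classical
  have hk0 : (0 : ℝ) < k := by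
    have : 0 < k := by omega
    exact_mod_cast this
  set MM : ℕ → ℕ := fun N => 2 * (⌊(N : ℝ) ^ (1 / (k : ℝ))⌋₊ + 1) with hMM
  have hMMt : Tendsto MM atTop atTop := by
    have h1 : Tendsto (fun N : ℕ => ⌊(N : ℝ) ^ (1 / (k : ℝ))⌋₊) atTop atTop :=
      tendsto_nat_floor_atTop.comp ((tendsto_rpow_atTop (by positivity)).comp tendsto_natCast_atTop_atTop)
    refine tendsto_atTop_mono (fun N => ?_) h1
    rw [hMM]
    simp only
    omega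
  set C0 : ℝ := ((c : ℝ) + 1) ^ (s' + 1) * 8 ^ (s' - 2 * k) * (4 : ℝ) ^ ((k : ℝ) + 1 / 2) with hC0
  have hC00 : 0 ≤ C0 := by positivity
  refine ⟨C0, hC00, ?_⟩
  filter_upwards [hMMt.eventually (hMV (1 / 2) (by norm_num)), eventually_ge_atTop 1, eventually_ge_atTop (BB0 f c (s' + 1))] with N h1 h2 h3
  obtain ⟨h4, h5⟩ := size_M (k := k) (by omega) h2 h3
  have hN1 : (1 : ℝ) ≤ N := by exact_mod_cast h2
  have hN0 : (0 : ℝ) < N := by linarith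
  set r : ℝ := (N : ℝ) ^ (1 / (k : ℝ)) with hr
  have hr1 : 1 ≤ r := Real.one_le_rpow hN1 (by positivity)
  have h6 := bad_le (k := k) (s' := s') (M := MM N) (by omega) hs hg h4 (T N) (hT1 N)
  have h7 : ((MM N : ℕ) : ℝ) ≤ 4 * r := h5
  have h8 : (((MM N : ℕ) : ℝ) + 1) ^ (s' - 2 * k) ≤ 8 ^ (s' - 2 * k) * r ^ (s' - 2 * k) := by
    rw [← mul_pow]
    exact pow_le_pow_left₀ (by positivity) (by linarith) _
  have h9 : ((MM N : ℕ) : ℝ) ^ ((k : ℝ) + 1 / 2) ≤ (4 : ℝ) ^ ((k : ℝ) + 1 / 2) * r ^ ((k : ℝ) + 1 / 2) := by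
    rw [← Real.mul_rpow (by norm_num) (by linarith)]
    exact Real.rpow_le_rpow (by positivity) h7 (by positivity)
  have h10 : ((T N).card : ℝ) ≤ C0 * (r ^ (s' - 2 * k) * r ^ ((k : ℝ) + 1 / 2)) := by
    calc ((T N).card : ℝ) ≤ ((c : ℝ) + 1) ^ (s' + 1) * ((((MM N : ℕ) : ℝ) + 1) ^ (s' - 2 * k) * JJ (CB k (range (MM N + 1))) (fsR fun z => f (z + c))) := h6
      _ ≤ ((c : ℝ) + 1) ^ (s' + 1) * ((8 ^ (s' - 2 * k) * r ^ (s' - 2 * k)) * ((4 : ℝ) ^ ((k : ℝ) + 1 / 2) * r ^ ((k : ℝ) + 1 / 2))) := by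
          apply mul_le_mul_of_nonneg_left _ (by positivity)
          exact mul_le_mul h8 (h1.trans h9) (by positivity) (by positivity)
      _ = _ := by
          rw [hC0]
          ring
  have h11 : r ^ (s' - 2 * k) * r ^ ((k : ℝ) + 1 / 2) = (N : ℝ) ^ (((s' + 1 : ℕ) : ℝ) / k - 1 - 1 / (2 * (k : ℝ))) := by
    rw [← Real.rpow_natCast r, hr, ← Real.rpow_mul hN0.le, ← Real.rpow_mul hN0.le, ← Real.rpow_add hN0]
    congr 1
    rw [Nat.cast_sub (by omega)]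
    push_cast
    field_simp
    ring
  rw [h11] at h10
  exact h10

/-- **the asymptotic formula with a power saving, `2 k + 1` and more summands** -/
theorem main_pow (k : ℕ) (hk : 2 ≤ k) : ∀ᵐ α : Fin k → ℝ, ∀ s : ℕ, 2 * k + 1 ≤ s → ∃ δ : ℝ, 0 < δ ∧ ∃ N₀ : ℕ, ∀ N : ℕ, N₀ ≤ N →
      |({x : Fin s → ℕ | (∀ i, 1 ≤ x i) ∧ ∑ i, ⌊(x i : ℝ) ^ k + ∑ j : Fin k, α j * (x i : ℝ) ^ (j : ℕ)⌋ = (N : ℤ)}.ncard : ℝ) -
          Real.Gamma (1 + 1 / k) ^ s / Real.Gamma ((s : ℝ) / k) * (N : ℝ) ^ ((s : ℝ) / k - 1)| ≤ (N : ℝ) ^ ((s : ℝ) / k - 1 - δ) := by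
  classical
  filter_upwards [ae_shift (data k hk)] with α hα s hs
  obtain ⟨c, hc⟩ := Tc_pos k α
  obtain ⟨h1, ρ, hρ, hρ1, τ, hτ, C, hC, H⟩ := hα c hc
  have e1 : (fun z : ℝ => PT k α (z + c)) = PT k (Tc k c α) := by
    funext z
    unfold PT
    exact shift_eq k c α z
  have hg : ∀ n : ℕ, n ^ k ≤ fr (fun z => PT k α (z + c)) n := by
    rw [e1]
    exact PT_lo hc
  obtain ⟨C', hC'⟩ := Pool.Agent.J4H87.AF.t_WIN k s hk hs (PT k (Tc k c α)) (PT_lo hc) h1 ρ τ C hρ hρ1 hτ hC H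
  obtain ⟨CA, hCA, HA⟩ := avg hk (by omega : k + 1 ≤ s) (Finset.sum_nonneg fun i _ => (hc i).le) (PT_lo hc)
    (fun n hn => PT_hi (by omega) hc n hn)
  obtain ⟨s', rfl⟩ : ∃ s', s = s' + 1 := ⟨s - 1, by omega⟩
  choose T hT1 hT2 using fun N : ℕ => repZ_split (s' := s') (c := c) (N := N) (by omega : 1 ≤ k) hg
  have h1' : MVf k (fun z => PT k α (z + c)) := by
    rw [e1]
    exact h1
  obtain ⟨C0, hC00, hbad⟩ := bad_pow hk (by omega) hg h1' T hT1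
  have hk0 : (0 : ℝ) < k := by exact_mod_cast (by omega : 0 < k)
  set a : ℝ := ((s' + 1 : ℕ) : ℝ) / k with ha
  set δ : ℝ := min (τ / (2 * k)) (min (ρ / k) (1 / (2 * k))) / 2 with hδ
  have hm0 : 0 < min (τ / (2 * k)) (min (ρ / k) (1 / (2 * k))) := lt_min (by positivity) (lt_min (by positivity) (by positivity))
  have hδ0 : 0 < δ := by positivity
  have hδ1 : 2 * δ ≤ τ / (2 * k) := by
    rw [hδ]
    linarith [min_le_left (τ / (2 * k)) (min (ρ / k) (1 / (2 * k)))]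
  have hδ2 : 2 * δ ≤ ρ / k := by
    rw [hδ]
    linarith [min_le_right (τ / (2 * k)) (min (ρ / k) (1 / (2 * k))), min_le_left (ρ / k) (1 / (2 * (k : ℝ)))]
  have hδ3 : 2 * δ ≤ 1 / (2 * k) := by
    rw [hδ]
    linarith [min_le_right (τ / (2 * k)) (min (ρ / k) (1 / (2 * k))), min_le_right (ρ / k) (1 / (2 * (k : ℝ)))]
  refine ⟨δ, hδ0, eventually_atTop.1 ?_⟩
  have ev : ∀ u : ℝ, 0 < u → ∀ B : ℝ, ∀ᶠ X : ℕ in atTop, B ≤ (X : ℝ) ^ u := fun u hu B =>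
    ((tendsto_rpow_atTop hu).comp tendsto_natCast_atTop_atTop).eventually (eventually_ge_atTop B)
  filter_upwards [hC', hbad, ev (ρ / k) (by positivity) 8, ev δ hδ0 (|C'| + 5 * CA + C0), eventually_ge_atTop 1] with N hN hB h3 h4 hN2
  obtain ⟨W, hW1, hW2, hW3⟩ := hN
  have hN1 : (1 : ℝ) ≤ N := by exact_mod_cast hN2
  have hN0 : (0 : ℝ) < N := by linarith
  have hX : 0 < (N : ℝ) ^ (1 - ρ / k) := Real.rpow_pos_of_pos hN0 _
  have hWpos : (0 : ℝ) < W := by linarith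
  have hWn : 1 ≤ W := by
    have : 0 < W := by exact_mod_cast hWpos
    omega
  have hWN : 2 * W ≤ N := by
    have e2 : (N : ℝ) ^ (1 - ρ / k) * (N : ℝ) ^ (ρ / k) = N := by
      rw [← Real.rpow_add hN0, sub_add_cancel, Real.rpow_one]
    have : 2 * (W : ℝ) ≤ N := by nlinarith
    exact_mod_cast this
  have g1 := HA N W hWn hWN
  have hP : 0 < (N : ℝ) ^ (a - 1 - 2 * δ) := Real.rpow_pos_of_pos hN0 _
  have mono : ∀ u v : ℝ, u ≤ v → (N : ℝ) ^ u ≤ (N : ℝ) ^ v := fun u v h => Real.rpow_le_rpow_of_exponent_le hN1 h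
  have g2 : (N : ℝ) ^ (a - 2) * W ≤ 4 * (N : ℝ) ^ (a - 1 - 2 * δ) := by
    calc (N : ℝ) ^ (a - 2) * W ≤ (N : ℝ) ^ (a - 2) * (4 * (N : ℝ) ^ (1 - ρ / k)) := mul_le_mul_of_nonneg_left hW2 (by positivity)
      _ = 4 * ((N : ℝ) ^ (a - 2) * (N : ℝ) ^ (1 - ρ / k)) := by ring
      _ = 4 * (N : ℝ) ^ (a - 1 - ρ / k) := by
          rw [← Real.rpow_add hN0]
          congr 2
          ring
      _ ≤ _ := by
          have := mono (a - 1 - ρ / k) (a - 1 - 2 * δ) (by linarith)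
          linarith
  have g3 : (N : ℝ) ^ ((((s' + 1 : ℕ) : ℝ) - 1) / k) / W ≤ (N : ℝ) ^ (a - 1 - 2 * δ) := by
    rw [div_le_iff₀ hWpos]
    calc (N : ℝ) ^ ((((s' + 1 : ℕ) : ℝ) - 1) / k) ≤ (N : ℝ) ^ (a - 1 - 2 * δ + (1 - ρ / k)) := by
          apply mono
          have k1 : (((s' + 1 : ℕ) : ℝ) - 1) / k = a - 1 / k := by
            rw [ha]
            ring
          have k2 : (1 : ℝ) / k = 1 / (2 * k) + 1 / (2 * k) := by
            field_simp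
            norm_num
          have k3 : ρ / k ≤ 1 / (2 * k) := by
            rw [div_le_div_iff₀ hk0 (by positivity)]
            nlinarith
          rw [k1, k2]
          linarith
      _ = (N : ℝ) ^ (a - 1 - 2 * δ) * (N : ℝ) ^ (1 - ρ / k) := Real.rpow_add hN0 _ _
      _ ≤ _ := mul_le_mul_of_nonneg_left hW1 hP.le
  have g4 : |(rep (PT k (Tc k c α)) (s' + 1) N : ℝ) - 1 / (W : ℝ) * ∑ h ∈ range W, (rep (PT k (Tc k c α)) (s' + 1) (N - h) : ℝ)| ≤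
      |C'| * (N : ℝ) ^ (a - 1 - 2 * δ) := by
    refine hW3.trans ?_
    calc C' * (N : ℝ) ^ (a - 1 - τ / (2 * k)) ≤ |C'| * (N : ℝ) ^ (a - 1 - τ / (2 * k)) :=
          mul_le_mul_of_nonneg_right (le_abs_self _) (by positivity)
      _ ≤ _ := mul_le_mul_of_nonneg_left (mono _ _ (by linarith)) (abs_nonneg _)
  have g5 : ((T N).card : ℝ) ≤ C0 * (N : ℝ) ^ (a - 1 - 2 * δ) :=
    hB.trans (mul_le_mul_of_nonneg_left (mono _ _ (by linarith)) hC00)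
  have g6 := abs_sub_le (rep (PT k (Tc k c α)) (s' + 1) N : ℝ)
    (1 / (W : ℝ) * ∑ h ∈ range W, (rep (PT k (Tc k c α)) (s' + 1) (N - h) : ℝ)) (cS k (s' + 1) * (N : ℝ) ^ (a - 1))
  have g7 : |(rep (PT k (Tc k c α)) (s' + 1) N : ℝ) - cS k (s' + 1) * (N : ℝ) ^ (a - 1)| ≤
      (|C'| + 5 * CA) * (N : ℝ) ^ (a - 1 - 2 * δ) := by
    have k1 : CA * ((N : ℝ) ^ (a - 2) * W + (N : ℝ) ^ ((((s' + 1 : ℕ) : ℝ) - 1) / k) / W) ≤
        CA * (4 * (N : ℝ) ^ (a - 1 - 2 * δ) + (N : ℝ) ^ (a - 1 - 2 * δ)) :=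
      mul_le_mul_of_nonneg_left (add_le_add g2 g3) (by linarith)
    nlinarith
  have g8 : (({x : Fin (s' + 1) → ℕ | (∀ i, 1 ≤ x i) ∧ ∑ i, ⌊(x i : ℝ) ^ k + ∑ j : Fin k, α j * (x i : ℝ) ^ (j : ℕ)⌋ = (N : ℤ)}.ncard : ℕ) : ℝ) =
      (rep (PT k (Tc k c α)) (s' + 1) N : ℝ) + (T N).card := by
    have := hT2 N
    rw [e1] at this
    have h9 : repZ (PT k α) (s' + 1) N = rep (PT k (Tc k c α)) (s' + 1) N + (T N).card := this
    have h10 : ((repZ (PT k α) (s' + 1) N : ℕ) : ℝ) = (rep (PT k (Tc k c α)) (s' + 1) N : ℝ) + (T N).card := by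
      rw [h9, Nat.cast_add]
    exact h10
  rw [g8]
  have e2 : (rep (PT k (Tc k c α)) (s' + 1) N : ℝ) + (T N).card - cS k (s' + 1) * (N : ℝ) ^ (a - 1) =
      ((rep (PT k (Tc k c α)) (s' + 1) N : ℝ) - cS k (s' + 1) * (N : ℝ) ^ (a - 1)) + (T N).card := by ring
  have g9 : |(rep (PT k (Tc k c α)) (s' + 1) N : ℝ) + (T N).card - cS k (s' + 1) * (N : ℝ) ^ (a - 1)| ≤
      (|C'| + 5 * CA + C0) * (N : ℝ) ^ (a - 1 - 2 * δ) := by
    rw [e2]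
    refine (abs_add_le _ _).trans ?_
    rw [abs_of_nonneg (by positivity : (0 : ℝ) ≤ ((T N).card : ℝ))]
    linarith
  refine g9.trans ?_
  calc (|C'| + 5 * CA + C0) * (N : ℝ) ^ (a - 1 - 2 * δ) ≤ (N : ℝ) ^ δ * (N : ℝ) ^ (a - 1 - 2 * δ) :=
        mul_le_mul_of_nonneg_right h4 hP.le
    _ = (N : ℝ) ^ (a - 1 - δ) := by
        rw [← Real.rpow_add hN0]
        congr 1
        ring

end Pool.Agent.J4H7.AG
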